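import Mathlib

/-!
# A mixed cubic sum of Shapiro Catalan triangle numbers

With `B n k = (k/n) C(2n, n-k)` we prove the closed form of `∑_{k=1}^{min(n,m)} B_{n,k}^2 B_{m,k}`
for all positive `n, m`.

Proof. For fixed `n` the sum satisfies a first order inhomogeneous recurrence in `m`
(a Gosper-type telescoping with a quadratic certificate), which gives a closed form with the sum
`∑_{j<m} C(n+j,n) C(n+j,n-1)`; a second telescoping in the form of a reciprocity identity turns it
into the stated form when `m ≥ n`.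
-/

open Finset

namespace Pool.Agent.Results.MP_651eca_nt.MixedCubicSum

/-- The entries of Shapiro's Catalan triangle, `B_{n,k} = (k/n) C(2n, n-k)` for `1 ≤ k ≤ n`. -/
def B (n k : ℕ) : ℚ := (k : ℚ) / n * (2 * n).choose (n - k)

theorem step (n k : ℕ) : ((n : ℚ) + k + 1) * ((2 * n).choose (n + (k + 1)) : ℚ) =
    ((n : ℚ) - k) * ((2 * n).choose (n + k) : ℚ) := by
  rcases Nat.lt_or_ge n k with h | h
  · rw [Nat.choose_eq_zero_of_lt (by omega : 2 * n < n + k),
      Nat.choose_eq_zero_of_lt (by omega : 2 * n < n + (k + 1))]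
    simp
  · have h1 := Nat.choose_succ_right_eq (2 * n) (n + k)
    have h2 : 2 * n - (n + k) = n - k := by omega
    rw [h2] at h1
    have h3 := congrArg (Nat.cast : ℕ → ℚ) h1
    push_cast [Nat.cast_sub h] at h3
    rw [← add_assoc]
    linear_combination h3

theorem central_up (m : ℕ) : ((m : ℚ) + 1) * ((2 * (m + 1)).choose (m + 1) : ℚ) =
    2 * (2 * m + 1) * ((2 * m).choose m : ℚ) := by
  have h1 := Nat.succ_mul_centralBinom_succ m
  unfold Nat.centralBinom at h1
  have h2 := congrArg (Nat.cast : ℕ → ℚ) h1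
  push_cast at h2 ⊢
  linear_combination h2

theorem up (m k : ℕ) : (2 * ((m : ℚ) + 1) * (2 * m + 1)) * ((2 * m).choose (m + k) : ℚ) =
    (((m : ℚ) + 1) ^ 2 - (k : ℚ) ^ 2) * ((2 * (m + 1)).choose (m + 1 + k) : ℚ) := by
  induction k with
  | zero =>
    have h2 := central_up m
    simp only [add_zero, Nat.cast_zero]
    linear_combination -((m : ℚ) + 1) * h2
  | succ k ih =>
    have h1 := step m k
    have h2 := step (m + 1) k
    have n1 : (m : ℚ) + k + 1 ≠ 0 := by positivity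
    apply mul_left_cancel₀ n1
    push_cast at ih h2 ⊢
    linear_combination (2 * ((m : ℚ) + 1) * (2 * m + 1)) * h1 + ((m : ℚ) - k) * ih -
      ((m : ℚ) + k + 1) * ((m : ℚ) - k) * h2

/-- the telescoping identity -/
theorem tele (n m K : ℕ) : ∑ k ∈ range K, ((k : ℚ) + 1) ^ 3 *
      (2 * ((n : ℚ) + (m + 1)) ^ 2 * (n + 2 * m) -
        2 * (n + 2 * (m + 1)) * (((m : ℚ) + 1) ^ 2 - ((k : ℚ) + 1) ^ 2)) *
      (((2 * n).choose (n + (k + 1)) : ℚ) ^ 2 * ((2 * (m + 1)).choose (m + 1 + (k + 1)) : ℚ)) =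
    ((n : ℚ) + K + 1) ^ 2 * ((m : ℚ) + 1 + K + 1) *
        (-(n * ((m : ℚ) + 1)) - (n + 2 * (m + 1)) * ((K + 1) * K)) *
      (((2 * n).choose (n + (K + 1)) : ℚ) ^ 2 * ((2 * (m + 1)).choose (m + 1 + (K + 1)) : ℚ)) +
    (n : ℚ) ^ 3 * ((m : ℚ) + 1) ^ 2 *
      (((2 * n).choose n : ℚ) ^ 2 * ((2 * (m + 1)).choose (m + 1) : ℚ)) := by
  induction K with
  | zero =>
    have h1 := step n 0
    have h2 := step (m + 1) 0
    simp only [Nat.cast_zero, add_zero, sub_zero, zero_add] at h1 h2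
    simp only [Finset.sum_range_zero, Nat.cast_zero, zero_add, add_zero]
    push_cast at h2 ⊢
    have e : ((n : ℚ) + 1) ^ 2 * ((m : ℚ) + 1 + 1) * (((2 * n).choose (n + 1) : ℚ) ^ 2 *
        ((2 * (m + 1)).choose (m + 1 + 1) : ℚ)) = (((n : ℚ) + 1) * ((2 * n).choose (n + 1) : ℚ)) ^ 2 *
        (((m : ℚ) + 1 + 1) * ((2 * (m + 1)).choose (m + 1 + 1) : ℚ)) := by ring
    rw [h1, h2] at e
    linear_combination (n * ((m : ℚ) + 1)) * e
  | succ K ih =>
    rw [Finset.sum_range_succ, ih]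
    have h1 := step n (K + 1)
    have h2 := step (m + 1) (K + 1)
    push_cast at h1 h2 ⊢
    have e : ((n : ℚ) + (K + 1) + 1) ^ 2 * ((m : ℚ) + 1 + (K + 1) + 1) *
        (((2 * n).choose (n + (K + 1 + 1)) : ℚ) ^ 2 *
        ((2 * (m + 1)).choose (m + 1 + (K + 1 + 1)) : ℚ)) =
        (((n : ℚ) + (K + 1) + 1) * ((2 * n).choose (n + (K + 1 + 1)) : ℚ)) ^ 2 *
        (((m : ℚ) + 1 + (K + 1) + 1) * ((2 * (m + 1)).choose (m + 1 + (K + 1 + 1)) : ℚ)) := by ring
    rw [h1, h2] at e
    linear_combination -(-(n * ((m : ℚ) + 1)) - (n + 2 * (m + 1)) * ((K + 1 + 1) * (K + 1))) * e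

/-- the sum, without the normalising factors -/
def T (n m : ℕ) : ℚ := ∑ k ∈ range n, ((k : ℚ) + 1) ^ 3 *
  (((2 * n).choose (n + (k + 1)) : ℚ) ^ 2 * ((2 * m).choose (m + (k + 1)) : ℚ))

theorem T_rec (n m : ℕ) : ((n : ℚ) + (m + 1)) ^ 2 * (n + 2 * m) * T n (m + 1) =
    2 * (n + 2 * (m + 1)) * (m + 1) * (2 * m + 1) * T n m +
      (n : ℚ) ^ 3 * ((m : ℚ) + 1) ^ 2 / 2 *
      (((2 * n).choose n : ℚ) ^ 2 * ((2 * (m + 1)).choose (m + 1) : ℚ)) := by
  have h := tele n m n
  rw [Nat.choose_eq_zero_of_lt (by omega : 2 * n < n + (n + 1))] at h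
  have e : ∑ k ∈ range n, ((k : ℚ) + 1) ^ 3 *
      (2 * ((n : ℚ) + (m + 1)) ^ 2 * (n + 2 * m) -
        2 * (n + 2 * (m + 1)) * (((m : ℚ) + 1) ^ 2 - ((k : ℚ) + 1) ^ 2)) *
      (((2 * n).choose (n + (k + 1)) : ℚ) ^ 2 * ((2 * (m + 1)).choose (m + 1 + (k + 1)) : ℚ)) =
      2 * ((n : ℚ) + (m + 1)) ^ 2 * (n + 2 * m) * T n (m + 1) -
        2 * (n + 2 * (m + 1)) * (2 * (m + 1) * (2 * m + 1)) * T n m := by
    unfold T
    rw [Finset.mul_sum, Finset.mul_sum, ← Finset.sum_sub_distrib]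
    refine Finset.sum_congr rfl fun k _ => ?_
    have h3 := up m (k + 1)
    push_cast at h3 ⊢
    linear_combination (2 * ((n : ℚ) + 2 * (m + 1)) * ((k : ℚ) + 1) ^ 3 *
      ((2 * n).choose (n + (k + 1)) : ℚ) ^ 2) * h3
  rw [e] at h
  push_cast at h
  linear_combination h / 2

/-- `Z = ∑_{j<m} C(n+j,n) C(n+j,n-1)` -/
def Z (n m : ℕ) : ℚ := ∑ j ∈ range m, ((n + j).choose n : ℚ) * ((n + j).choose (n - 1) : ℚ)

theorem choose_pred' (n m : ℕ) (hn : 1 ≤ n) : ((m : ℚ) + 1) * ((n + m).choose (n - 1) : ℚ) =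
    n * ((n + m).choose n : ℚ) := by
  obtain ⟨t, rfl⟩ : ∃ t, n = t + 1 := ⟨n - 1, by omega⟩
  have h1 := Nat.choose_succ_right_eq (t + 1 + m) t
  rw [show t + 1 + m - t = m + 1 by omega] at h1
  have h2 := congrArg (Nat.cast : ℕ → ℚ) h1
  rw [Nat.add_sub_cancel]
  push_cast at h2 ⊢
  linear_combination -h2

theorem choose_up (n m : ℕ) : ((m : ℚ) + 1) * ((n + (m + 1)).choose n : ℚ) =
    ((n : ℚ) + m + 1) * ((n + m).choose n : ℚ) := by
  have h1 := Nat.add_one_mul_choose_eq (n + m) m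
  have h2 : (n + m).choose n = (n + m).choose m := by
    rw [← Nat.choose_symm (by omega : m ≤ n + m)]; congr 1; omega
  have h3 : (n + (m + 1)).choose n = (n + m + 1).choose (m + 1) := by
    rw [← Nat.choose_symm (by omega : m + 1 ≤ n + m + 1)]; congr 1; omega
  rw [h2, h3]
  have h4 := congrArg (Nat.cast : ℕ → ℚ) h1
  push_cast [Nat.succ_eq_add_one] at h4 ⊢
  linear_combination -h4

theorem closed (n m : ℕ) (hn : 1 ≤ n) : 2 * T n m * ((n + m).choose n : ℚ) ^ 2 =
    (n : ℚ) ^ 2 * ((2 * n).choose n : ℚ) ^ 2 * ((2 * m).choose m : ℚ) *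
      (m * ((n + m).choose n : ℚ) ^ 2 - (n + 2 * m) * Z n m) := by
  induction m with
  | zero =>
    have : T n 0 = 0 := by
      unfold T
      apply Finset.sum_eq_zero
      intro k _
      rw [Nat.choose_eq_zero_of_lt (by omega : 2 * 0 < 0 + (k + 1))]
      push_cast; ring
    rw [this]
    unfold Z
    simp
  | succ m ih =>
    have hr := T_rec n m
    have hz : Z n (m + 1) = Z n m + ((n + m).choose n : ℚ) * ((n + m).choose (n - 1) : ℚ) := by
      unfold Z; rw [Finset.sum_range_succ]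
    have h1 := choose_pred' n m hn
    have h2 := choose_up n m
    have h3 := central_up m
    have n1 : (m : ℚ) + 1 ≠ 0 := by positivity
    have n2 : (n : ℚ) + 2 * m ≠ 0 := by positivity
    rw [hz]
    push_cast
    set c := ((n + m).choose n : ℚ)
    set c' := ((n + (m + 1)).choose n : ℚ)
    set e := ((n + m).choose (n - 1) : ℚ)
    set b := ((2 * m).choose m : ℚ)
    set b' := ((2 * (m + 1)).choose (m + 1) : ℚ)
    set D := ((2 * n).choose n : ℚ)
    have he : e = n * c / (m + 1) := by rw [eq_div_iff n1]; linear_combination h1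
    have hc' : c' = (n + m + 1) * c / (m + 1) := by rw [eq_div_iff n1]; linear_combination h2
    have hb : b' = 2 * (2 * m + 1) * b / (m + 1) := by rw [eq_div_iff n1]; linear_combination h3
    have n3 : (n : ℚ) + m + 1 ≠ 0 := by positivity
    have hT : T n (m + 1) = (2 * (n + 2 * (m + 1)) * (m + 1) * (2 * m + 1) * T n m +
      (n : ℚ) ^ 3 * ((m : ℚ) + 1) ^ 2 / 2 * (D ^ 2 * b')) / (((n : ℚ) + (m + 1)) ^ 2 * (n + 2 * m)) := by
      rw [eq_div_iff]
      · linear_combination hr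
      · have : (n : ℚ) + (m + 1) ≠ 0 := by rw [← add_assoc]; exact n3
        exact mul_ne_zero (pow_ne_zero _ this) n2
    rw [hT, hc', he, hb]
    have n4 : (n : ℚ) + (m + 1) ≠ 0 := by rw [← add_assoc]; exact n3
    field_simp
    linear_combination (((m : ℚ) + 1) * (n + 2 * (m + 1)) * ((n : ℚ) + m + 1) ^ 2) * ih

/-- telescoping for the reciprocity identity -/
theorem tele2 (n m K : ℕ) (hn : 1 ≤ n) : ∑ j ∈ range K, (((n : ℚ) + m + 1) *
      ((m + 1 + j).choose (m + 1) : ℚ) - m * ((m + j).choose m : ℚ)) * ((n + j).choose (n - 1) : ℚ) =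
    n * ((n + K).choose n : ℚ) * ((m + K).choose (m + 1) : ℚ) := by
  induction K with
  | zero => simp
  | succ K ih =>
    rw [Finset.sum_range_succ, ih]
    have h1 := choose_pred' n K hn
    have h2 := choose_up n K
    have h3 := choose_up m K
    have h4 : ((m : ℚ) + 1) * ((m + K).choose (m + 1) : ℚ) = K * ((m + K).choose m : ℚ) := by
      have h5 := Nat.choose_succ_right_eq (m + K) m
      rw [show m + K - m = K by omega] at h5
      have h6 := congrArg (Nat.cast : ℕ → ℚ) h5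
      push_cast at h6
      linear_combination h6
    have h7 : ((m + (K + 1)).choose (m + 1) : ℚ) = ((m + K).choose m : ℚ) +
        ((m + K).choose (m + 1) : ℚ) := by
      rw [← add_assoc, Nat.choose_succ_succ']; push_cast; rfl
    have h8 : ((m + 1 + K).choose (m + 1) : ℚ) = ((m + K).choose m : ℚ) +
        ((m + K).choose (m + 1) : ℚ) := by
      rw [show m + 1 + K = m + K + 1 by ring, Nat.choose_succ_succ']; push_cast; rfl
    rw [h7, h8]
    set c := ((n + K).choose n : ℚ)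
    set c' := ((n + (K + 1)).choose n : ℚ)
    set e := ((n + K).choose (n - 1) : ℚ)
    set g := ((m + K).choose m : ℚ)
    set g' := ((m + K).choose (m + 1) : ℚ)
    have n1 : (K : ℚ) + 1 ≠ 0 := by positivity
    have n2 : (m : ℚ) + 1 ≠ 0 := by positivity
    have he : e = n * c / (K + 1) := by rw [eq_div_iff n1]; linear_combination h1
    have hc' : c' = (n + K + 1) * c / (K + 1) := by rw [eq_div_iff n1]; linear_combination h2
    have hg : g' = K * g / (m + 1) := by rw [eq_div_iff n2]; linear_combination h4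
    rw [he, hc', hg]
    field_simp
    ring

/-- the reciprocity identity -/
theorem recip (n m : ℕ) (hn : 1 ≤ n) : (m : ℚ) * ((n + m).choose n : ℚ) *
      ∑ j ∈ range n, ((m + j).choose m : ℚ) * ((n + j).choose (n - 1) : ℚ) =
    n * ((2 * n).choose n : ℚ) * Z n m := by
  induction m with
  | zero => simp [Z]
  | succ m ih =>
    have h1 := tele2 n m n hn
    have h2 := choose_up n m
    have hz : Z n (m + 1) = Z n m + ((n + m).choose n : ℚ) * ((n + m).choose (n - 1) : ℚ) := by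
      unfold Z; rw [Finset.sum_range_succ]
    have h3 : ((m + n).choose (m + 1) : ℚ) = ((n + m).choose (n - 1) : ℚ) := by
      rw [← Nat.choose_symm (by omega : m + 1 ≤ m + n)]
      congr 2 <;> omega
    rw [h3, ← two_mul] at h1
    have h4 : ∑ j ∈ range n, (((n : ℚ) + m + 1) * ((m + 1 + j).choose (m + 1) : ℚ) -
        m * ((m + j).choose m : ℚ)) * ((n + j).choose (n - 1) : ℚ) =
        ((n : ℚ) + m + 1) * (∑ j ∈ range n, ((m + 1 + j).choose (m + 1) : ℚ) *
          ((n + j).choose (n - 1) : ℚ)) - m * (∑ j ∈ range n, ((m + j).choose m : ℚ) *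
          ((n + j).choose (n - 1) : ℚ)) := by
      rw [Finset.mul_sum, Finset.mul_sum, ← Finset.sum_sub_distrib]
      exact Finset.sum_congr rfl fun j _ => by ring
    rw [h4] at h1
    rw [hz]
    push_cast
    linear_combination (∑ j ∈ range n, ((m + 1 + j).choose (m + 1) : ℚ) *
          ((n + j).choose (n - 1) : ℚ)) * h2 + ((n + m).choose n : ℚ) * h1 + ih

/-- the sum in terms of `T` -/
theorem sum_eq (n m : ℕ) (hn : 1 ≤ n) (hm : 1 ≤ m) :
    ∑ k ∈ Finset.Icc 1 (min n m), B n k ^ 2 * B m k = T n m / ((n : ℚ) ^ 2 * m) := by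
  have e1 : ∑ k ∈ Finset.Icc 1 (min n m), B n k ^ 2 * B m k =
      ∑ k ∈ range (min n m), B n (k + 1) ^ 2 * B m (k + 1) := by
    rw [Finset.range_eq_Ico, Finset.sum_Ico_add' (fun k => B n k ^ 2 * B m k) 0 (min n m) 1]
    rfl
  have e2 : T n m = ∑ k ∈ range (min n m), ((k : ℚ) + 1) ^ 3 *
      (((2 * n).choose (n + (k + 1)) : ℚ) ^ 2 * ((2 * m).choose (m + (k + 1)) : ℚ)) := by
    unfold T
    symm
    apply Finset.sum_subset
    · intro i hi; rw [Finset.mem_range] at *; omega
    · intro i _ hi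
      rw [Finset.mem_range] at hi
      rcases Nat.lt_or_ge i n with h | h
      · rw [Nat.choose_eq_zero_of_lt (by omega : 2 * m < m + (i + 1))]; push_cast; ring
      · rw [Nat.choose_eq_zero_of_lt (by omega : 2 * n < n + (i + 1))]; push_cast; ring
  rw [e1, e2, Finset.sum_div]
  refine Finset.sum_congr rfl fun k hk => ?_
  rw [Finset.mem_range] at hk
  unfold B
  rw [show (2 * n).choose (n - (k + 1)) = (2 * n).choose (n + (k + 1)) by
    rw [← Nat.choose_symm (by omega : n + (k + 1) ≤ 2 * n)]; congr 1; omega]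
  rw [show (2 * m).choose (m - (k + 1)) = (2 * m).choose (m + (k + 1)) by
    rw [← Nat.choose_symm (by omega : m + (k + 1) ≤ 2 * m)]; congr 1; omega]
  have n1 : (n : ℚ) ≠ 0 := by positivity
  have n2 : (m : ℚ) ≠ 0 := by positivity
  push_cast
  field_simp

/-- The closed form of the mixed cubic sum, for all positive `n, m`, with `r = min n m` and
`s = max n m`. -/
theorem result (n m : ℕ) (hn : 1 ≤ n) (hm : 1 ≤ m) :
    ∑ k ∈ Finset.Icc 1 (min n m), B n k ^ 2 * B m k =
      1 / 2 * ((2 * n).choose n : ℚ) ^ 2 * ((2 * m).choose m : ℚ) *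
        (1 - ((n : ℚ) + 2 * m) / (min n m : ℕ) * ((n + m).choose n : ℚ)⁻¹ *
          ((n + min n m).choose n : ℚ)⁻¹ *
          ∑ j ∈ Finset.range (min n m), ((max n m + j).choose (max n m) : ℚ) *
            ((n + j).choose (n - 1) : ℚ)) := by
  rw [sum_eq n m hn hm]
  have n1 : (n : ℚ) ≠ 0 := by positivity
  have n2 : (m : ℚ) ≠ 0 := by positivity
  have hc := closed n m hn
  have hpos : 0 < (n + m).choose n := Nat.choose_pos (by omega)
  have hpos2 : 0 < (2 * n).choose n := Nat.choose_pos (by omega)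
  have n3 : ((n + m).choose n : ℚ) ≠ 0 := by positivity
  have n4 : ((2 * n).choose n : ℚ) ≠ 0 := by positivity
  rcases Nat.le_total m n with h | h
  · rw [Nat.min_eq_right h, Nat.max_eq_left h]
    have e : ∑ j ∈ Finset.range m, ((n + j).choose n : ℚ) * ((n + j).choose (n - 1) : ℚ) = Z n m := rfl
    rw [e]
    field_simp
    linear_combination hc
  · rw [Nat.min_eq_left h, Nat.max_eq_right h, ← two_mul]
    have hr := recip n m hn
    field_simp
    apply mul_right_cancel₀ n3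
    linear_combination hc + (n * ((2 * n).choose n : ℚ) * ((2 * m).choose m : ℚ) *
      ((n : ℚ) + 2 * m)) * hr

end Pool.Agent.Results.MP_651eca_nt.MixedCubicSum
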